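import Pool.Agent.Y742.CN.Stm

/-!
# The Lie algebra generated by the derivations that kill one of many subfields
-/

set_option autoImplicit false

namespace Pool.Agent.Y606.CN

open Pool.Agent.Y742.CN

/-- If the derivations of a set are stable under multiplication by functions, then so is the Lie
algebra generated by them. -/
theorem lieSpan_smul {Ω K : Type} [Field Ω] [Field K] [Algebra Ω K]
    (S : Set (Derivation Ω K K)) (hS : ∀ A ∈ S, ∀ c : K, c • A ∈ S) :
    ∀ A ∈ LieSubalgebra.lieSpan Ω (Derivation Ω K K) S, ∀ c : K,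
      c • A ∈ LieSubalgebra.lieSpan Ω (Derivation Ω K K) S := by
  let g1 : LieSubalgebra Ω (Derivation Ω K K) :=
    { carrier := {A | A ∈ LieSubalgebra.lieSpan Ω (Derivation Ω K K) S ∧
        ∀ c : K, c • A ∈ LieSubalgebra.lieSpan Ω (Derivation Ω K K) S}
      add_mem' := fun {A B} hA hB => ⟨add_mem hA.1 hB.1, fun c => by
        rw [smul_add]
        exact add_mem (hA.2 c) (hB.2 c)⟩
      zero_mem' := ⟨zero_mem _, fun c => by
        rw [smul_zero]
        exact zero_mem _⟩
      smul_mem' := fun r A hA => ⟨(LieSubalgebra.lieSpan Ω (Derivation Ω K K) S).smul_mem r hA.1,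
        fun c => by
          have e : c • (r • A) = r • (c • A) := by
            ext a
            simp only [Derivation.smul_apply]
            rw [smul_comm]
          rw [e]
          exact (LieSubalgebra.lieSpan Ω (Derivation Ω K K) S).smul_mem r (hA.2 c)⟩
      lie_mem' := fun {A B} hA hB => ⟨LieSubalgebra.lie_mem _ hA.1 hB.1, fun c => by
        have e : c • ⁅A, B⁆ = ⁅c • A, B⁆ + (B c) • A := by
          ext a
          simp only [Derivation.smul_apply, Derivation.commutator_apply, Derivation.add_apply,
            smul_eq_mul, Derivation.leibniz]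
          ring
        rw [e]
        exact add_mem (LieSubalgebra.lie_mem _ (hA.2 c) hB.1) (hA.2 (B c))⟩ }
  have h : LieSubalgebra.lieSpan Ω (Derivation Ω K K) S ≤ g1 := by
    rw [LieSubalgebra.lieSpan_le]
    intro A hA
    exact ⟨LieSubalgebra.subset_lieSpan hA, fun c => LieSubalgebra.subset_lieSpan (hS A hA c)⟩
  intro A hA c
  exact (h hA).2 c

/-- conclusion for subfields -/
theorem sMain (h3 : SCoord) (h9 : SFinal) : SMain := by
  intro Ω K I _ _ _ _ n x hx L hL hinv
  set S : Set (Derivation Ω K K) := {D | ∃ i, ∀ a ∈ L i, D a = 0} with hSdef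
  have hS : ∀ A ∈ S, ∀ c : K, c • A ∈ S := by
    rintro A ⟨i, hi⟩ c
    refine ⟨i, fun a ha => ?_⟩
    rw [Derivation.smul_apply, hi a ha, smul_zero]
  have hsm := lieSpan_smul S hS
  -- the space of derivations
  let g : Submodule K (Derivation Ω K K) :=
    { carrier := {A | A ∈ LieSubalgebra.lieSpan Ω (Derivation Ω K K) S}
      add_mem' := fun {A B} hA hB => (LieSubalgebra.lieSpan Ω (Derivation Ω K K) S).add_mem hA hB
      zero_mem' := (LieSubalgebra.lieSpan Ω (Derivation Ω K K) S).zero_mem
      smul_mem' := fun c A hA => hsm A hA c }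
  have hg : ∀ A ∈ g, ∀ B ∈ g, ⁅A, B⁆ ∈ g := fun A hA B hB =>
    (LieSubalgebra.lieSpan Ω (Derivation Ω K K) S).lie_mem hA hB
  -- the coordinate derivations
  have hD : ∀ i, ∃ D : Derivation Ω K K, (∀ a ∈ L i, D a = 0) ∧ AlgLeaves D ∧
      ∀ a, D a = 0 → IsAlgebraic (L i) a := by
    intro i
    obtain ⟨t, ht, hb⟩ := hL i
    haveI : CharZero (L i) := charZero_of_injective_algebraMap (algebraMap Ω (L i)).injective
    have hind : ∀ a : K, Transcendental (L i) a → AlgebraicIndependent (L i) (fun _ : Unit => a) :=
      fun a ha => algebraicIndependent_unique_type_iff.2 ha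
    have hbas : IsTranscendenceBasis (L i) (fun _ : Unit => t) := by
      rw [(hind t ht).isTranscendenceBasis_iff_isAlgebraic]
      rw [← IntermediateField.isAlgebraic_adjoin_iff_top]
      rw [Set.range_const]
      exact ⟨hb⟩
    have hbas' : ∀ a : K, Transcendental (L i) a →
        IsTranscendenceBasis (L i) (fun _ : Unit => a) := by
      intro a ha
      apply (hind a ha).isTranscendenceBasis_of_trdeg_le_of_finite
      rw [← hbas.cardinalMk_eq_trdeg]
    obtain ⟨d, hd1, hd2⟩ := h3 (L i) K Unit (fun _ => t) hbas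
    have hdt : d () t = 1 := by
      rw [hd1 () ()]
      simp
    have hdL : ∀ a ∈ L i, d () a = 0 := by
      intro a ha
      exact (d ()).map_algebraMap (⟨a, ha⟩ : L i)
    refine ⟨(d ()).restrictScalars Ω, hdL, ⟨L i, t, hdL, ?_, hb⟩, ?_⟩
    · show d () t ≠ 0
      rw [hdt]
      exact one_ne_zero
    · intro a ha
      by_contra hna
      obtain ⟨e, he1, he2⟩ := h3 (L i) K Unit (fun _ => a) (hbas' a hna)
      have := he2 K (RingHom.id K) (fun b => d () b)
        ⟨fun a b => map_add _ a b, fun a b => by
          rw [Derivation.leibniz]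
          simp only [smul_eq_mul, RingHom.id_apply], fun c => (d ()).map_algebraMap c⟩ t
      have ha' : d () a = 0 := ha
      simp only [hdt, ha', mul_zero, Finset.sum_const_zero] at this
      exact one_ne_zero this
  choose D hD1 hD2 hD3 using hD
  have htop : g = ⊤ := by
    apply h9 Ω K I n x hx g hg D
    · intro i
      exact LieSubalgebra.subset_lieSpan ⟨i, hD1 i⟩
    · exact hD2
    · intro a ha
      exact hinv a fun i => hD3 i a (ha i)
  rw [eq_top_iff]
  intro A _
  have : A ∈ g := by
    rw [htop]
    trivial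
  exact this

end Pool.Agent.Y606.CN
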